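import Mathlib
import Pool.Agent.H64.N7
set_option autoImplicit false

/-!
Torsion units of integral group rings keep their orders under representations which are faithful on
the group, in characteristic zero or in a characteristic not dividing the order of the unit.
-/

namespace Pool.Agent.Results.MP_6f6ee6_al.FaithfulReps

open Pool.Agent.H64

/-- Let `G` be a finite group, `F` a field and `ρ : G → GL_m(F)` an injective homomorphism.  If `u` is
a unit of finite order of `ℤ[G]` with coefficient sum `1` whose order is not zero in `F`, then the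
image of `u` under the linear extension of `ρ` has the same order as `u`. -/
theorem result (G : Type) [Group G] [Finite G] (F : Type) [Field F] (m : ℕ)
    (ρ : G →* Matrix (Fin m) (Fin m) F) (hρ : Function.Injective ρ) (u : (MonoidAlgebra ℤ G)ˣ)
    (haug : (MonoidAlgebra.lift ℤ ℤ G (1 : G →* ℤ)) (u : MonoidAlgebra ℤ G) = 1)
    (hu : ((orderOf u : ℕ) : F) ≠ 0) :
    orderOf ((MonoidAlgebra.lift ℤ (Matrix (Fin m) (Fin m) F) G ρ) (u : MonoidAlgebra ℤ G)) =
      orderOf u := by
  have : Fintype G := Fintype.ofFinite G
  obtain ⟨c, hc⟩ := CharP.exists F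
  have hfin : IsOfFinOrder u := by
    rw [← orderOf_pos_iff]
    rcases Nat.eq_zero_or_pos (orderOf u) with h | h
    · rw [h, Nat.cast_zero] at hu; exact absurd rfl hu
    · exact h
  refine order_preserved (MonoidAlgebra.lift ℤ (Matrix (Fin m) (Fin m) F) G ρ).toRingHom ?_ u haug
    hfin ?_
  · intro a b hab
    have h1 : ∀ g, (MonoidAlgebra.lift ℤ (Matrix (Fin m) (Fin m) F) G ρ).toRingHom
        (MonoidAlgebra.single g 1) = ρ g := by
      intro g
      show MonoidAlgebra.lift ℤ (Matrix (Fin m) (Fin m) F) G ρ (MonoidAlgebra.single g 1) = _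
      rw [MonoidAlgebra.lift_single, one_smul]
    simp only [h1] at hab
    exact hρ hab
  · rcases CharP.char_is_prime_or_zero F c with hcp | hc0
    · left
      refine ⟨c, hcp, ?_, ?_⟩
      · have h1 : (c : Matrix (Fin m) (Fin m) F) = algebraMap F _ (c : F) := (map_natCast _ _).symm
        rw [h1, CharP.cast_eq_zero, map_zero]
      · rw [← CharP.cast_eq_zero_iff F c]; exact hu
    · right
      subst hc0
      have : CharZero F := CharP.charP_to_charZero F
      exact ⟨inferInstance⟩

end Pool.Agent.Results.MP_6f6ee6_al.FaithfulReps
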