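import Mathlib
import Pool.Agent.H64.N7
set_option autoImplicit false

/-!
The spectrum problem for general linear groups over finite fields.
-/

namespace Pool.Agent.Results.MP_6f6ee6_al.GeneralLinear

open Pool.Agent.H64

/-- Let `F` be a finite field, `G = GL_m(F)` and `n` a positive integer.  If the characteristic of `F`
does not divide `n`, or if `m ≤ 3`, then `G` has an element of order `n` if and only if `ℤ[G]` has a
unit of order `n` with coefficient sum `1`. -/
theorem result (F : Type) [Field F] [Finite F] (m n : ℕ) (hn : 0 < n)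
    (h : (n : F) ≠ 0 ∨ m ≤ 3) :
    (∃ u : (MonoidAlgebra ℤ (Matrix.GeneralLinearGroup (Fin m) F))ˣ,
      (MonoidAlgebra.lift ℤ ℤ _ (1 : Matrix.GeneralLinearGroup (Fin m) F →* ℤ))
        (u : MonoidAlgebra ℤ (Matrix.GeneralLinearGroup (Fin m) F)) = 1 ∧ orderOf u = n) ↔
      ∃ g : Matrix.GeneralLinearGroup (Fin m) F, orderOf g = n := by
  constructor
  · rintro ⟨u, haug, hu⟩
    rcases h with h | h
    · exact gl_prime_to n h u haug hu
    · exact gl_small h n hn u haug hu
  · rintro ⟨g, hg⟩
    obtain ⟨u, h1, h2⟩ := unit_of_elem g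
    exact ⟨u, h1, by rw [h2, hg]⟩

end Pool.Agent.Results.MP_6f6ee6_al.GeneralLinear
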