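import Mathlib
import Pool.Agent.H64.N7
set_option autoImplicit false

/-!
Units of prime order in the integral group ring of a finite group have, together with all their
powers, the partial augmentations of an element of the group.
-/

namespace Pool.Agent.Results.MP_6f6ee6_al.PrimeOrderUnits

open Pool.Agent.H64

open Classical in
/-- the partial augmentation of `x` at the conjugacy class of `g` -/
noncomputable def pa {G : Type} [Group G] [Fintype G] (x : MonoidAlgebra ℤ G) (g : G) : ℤ :=
  ∑ h ∈ Finset.univ.filter (fun h : G => IsConj g h), x.coeff h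

open Classical in
/-- Let `G` be a finite group and `u` a unit of `ℤ[G]` with coefficient sum `1` and of prime order
`p`.  Then there is an element `x` of `G` of order `p` such that for every `k` the unit `u ^ k` has
the same partial augmentations as the group element `x ^ k`. -/
theorem result (G : Type) [Group G] [Fintype G] (p : ℕ) (hp : p.Prime) (u : (MonoidAlgebra ℤ G)ˣ)
    (haug : (MonoidAlgebra.lift ℤ ℤ G (1 : G →* ℤ)) (u : MonoidAlgebra ℤ G) = 1)
    (hu : orderOf u = p) :
    ∃ x : G, orderOf x = p ∧ ∀ (k : ℕ) (g : G),
      pa ((u ^ k : (MonoidAlgebra ℤ G)ˣ) : MonoidAlgebra ℤ G) g =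
        if IsConj (x ^ k) g then 1 else 0 := by
  obtain ⟨x, hx, hPx⟩ := prime_order p hp u haug hu
  have hP : PAug (u : MonoidAlgebra ℤ G) x := by
    intro g
    convert hPx g
  refine ⟨x, hx, fun k g => ?_⟩
  by_cases hk : p ∣ k
  · have h1 : u ^ k = 1 := by rw [← orderOf_dvd_iff_pow_eq_one, hu]; exact hk
    have h2 : x ^ k = 1 := by rw [← orderOf_dvd_iff_pow_eq_one, hx]; exact hk
    have h3 := (PAug.one : PAug (1 : MonoidAlgebra ℤ G) 1) g
    rw [h1, h2, Units.val_one]
    unfold pa
    convert h3
  · have h3 := PAug.pow p hp k u haug hu x hx hP hk g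
    unfold pa
    convert h3

end Pool.Agent.Results.MP_6f6ee6_al.PrimeOrderUnits
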